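import Mathlib

/-!
# Mumford groups and generalized Heisenberg groups: definitions

* `Kn n`, `form n`, `Lag n`: the finite group `(ℤ/n⁸)² × (ℤ/n⁴)²` with a symplectic form with values in
  `ℝ/ℤ` and a Lagrangian subgroup.
* `HG β`: the group `ℝ/ℤ × K` with the product `(s, x) (t, y) = (s + t + β(x, y), x + y)`.
* `IsMumford`, `IsGenHeisenberg`.
-/

set_option autoImplicit false

namespace Pool.Agent.N58.MH

/-- the circle group `ℝ/ℤ` -/
abbrev T : Type := UnitAddCircle

/-! ### The finite groups -/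

/-- the finite group `(ℤ/n⁸)² × (ℤ/n⁴)²` -/
abbrev Kn (n : ℕ) : Type := (ZMod (n ^ 8) × ZMod (n ^ 8)) × (ZMod (n ^ 4) × ZMod (n ^ 4))

/-- The form `(x₁ y₂ - x₂ y₁) / n⁸ - (x₃ y₄ - x₄ y₃) / n⁴` modulo `1`. -/
noncomputable def form (n : ℕ) [NeZero n] : Kn n →+ Kn n →+ T :=
  AddMonoidHom.mk' (fun x => AddMonoidHom.mk'
    (fun y => ZMod.toAddCircle (x.1.1 * y.1.2 - x.1.2 * y.1.1) -
      ZMod.toAddCircle (x.2.1 * y.2.2 - x.2.2 * y.2.1)) (by
        intro a b
        simp only [Prod.fst_add, Prod.snd_add]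
        rw [show x.1.1 * (a.1.2 + b.1.2) - x.1.2 * (a.1.1 + b.1.1) =
            (x.1.1 * a.1.2 - x.1.2 * a.1.1) + (x.1.1 * b.1.2 - x.1.2 * b.1.1) by ring,
          show x.2.1 * (a.2.2 + b.2.2) - x.2.2 * (a.2.1 + b.2.1) =
            (x.2.1 * a.2.2 - x.2.2 * a.2.1) + (x.2.1 * b.2.2 - x.2.2 * b.2.1) by ring,
          map_add, map_add]
        abel)) (by
      intro a b
      ext y
      simp only [AddMonoidHom.mk'_apply, AddMonoidHom.add_apply, Prod.fst_add, Prod.snd_add]
      rw [show (a.1.1 + b.1.1) * y.1.2 - (a.1.2 + b.1.2) * y.1.1 =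
            (a.1.1 * y.1.2 - a.1.2 * y.1.1) + (b.1.1 * y.1.2 - b.1.2 * y.1.1) by ring,
          show (a.2.1 + b.2.1) * y.2.2 - (a.2.2 + b.2.2) * y.2.1 =
            (a.2.1 * y.2.2 - a.2.2 * y.2.1) + (b.2.1 * y.2.2 - b.2.2 * y.2.1) by ring,
          map_add, map_add]
      abel)

theorem form_apply (n : ℕ) [NeZero n] (x y : Kn n) :
    form n x y = ZMod.toAddCircle (x.1.1 * y.1.2 - x.1.2 * y.1.1) -
      ZMod.toAddCircle (x.2.1 * y.2.2 - x.2.2 * y.2.1) := rfl

/-- The Lagrangian subgroup of all `(n⁴ b, -n² a, -n² b, a - n b + n² c)`, `a`, `b`, `c` integers. -/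
def Lag (n : ℕ) : AddSubgroup (Kn n) where
  carrier := {x | ∃ a b c : ℤ, x = (((((n : ℤ) ^ 4 * b : ℤ) : ZMod (n ^ 8)),
    ((-(n : ℤ) ^ 2 * a : ℤ) : ZMod (n ^ 8))), (((-(n : ℤ) ^ 2 * b : ℤ) : ZMod (n ^ 4)),
    ((a - n * b + (n : ℤ) ^ 2 * c : ℤ) : ZMod (n ^ 4))))}
  zero_mem' := ⟨0, 0, 0, by simp; rfl⟩
  add_mem' := by
    rintro _ _ ⟨a, b, c, rfl⟩ ⟨a', b', c', rfl⟩
    refine ⟨a + a', b + b', c + c', ?_⟩
    simp only [Prod.mk_add_mk, Prod.mk.injEq]
    push_cast
    refine ⟨⟨by ring, by ring⟩, by ring, by ring⟩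
  neg_mem' := by
    rintro _ ⟨a, b, c, rfl⟩
    refine ⟨-a, -b, -c, ?_⟩
    simp only [Prod.neg_mk, Prod.mk.injEq]
    push_cast
    refine ⟨⟨by ring, by ring⟩, by ring, by ring⟩

theorem mem_Lag (n : ℕ) (x : Kn n) : x ∈ Lag n ↔ ∃ a b c : ℤ,
    x = (((((n : ℤ) ^ 4 * b : ℤ) : ZMod (n ^ 8)),
    ((-(n : ℤ) ^ 2 * a : ℤ) : ZMod (n ^ 8))), (((-(n : ℤ) ^ 2 * b : ℤ) : ZMod (n ^ 4)),
    ((a - n * b + (n : ℤ) ^ 2 * c : ℤ) : ZMod (n ^ 4)))) := Iff.rfl

/-! ### The group `HG β` -/

/-- The group `ℝ/ℤ × K` with the product `(s, x) (t, y) = (s + t + β(x, y), x + y)`. -/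
@[ext]
structure HG {K : Type} [AddCommGroup K] (β : K →+ K →+ T) where
  /-- the first component -/
  c : T
  /-- the second component -/
  v : K

namespace HG

variable {K : Type} [AddCommGroup K] (β : K →+ K →+ T)

instance : Mul (HG β) := ⟨fun g h => ⟨g.c + h.c + β g.v h.v, g.v + h.v⟩⟩
instance : One (HG β) := ⟨⟨0, 0⟩⟩
instance : Inv (HG β) := ⟨fun g => ⟨-g.c + β g.v g.v, -g.v⟩⟩

@[simp] theorem mul_c (g h : HG β) : (g * h).c = g.c + h.c + β g.v h.v := rfl
@[simp] theorem mul_v (g h : HG β) : (g * h).v = g.v + h.v := rfl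
@[simp] theorem one_c : (1 : HG β).c = 0 := rfl
@[simp] theorem one_v : (1 : HG β).v = 0 := rfl
@[simp] theorem inv_c (g : HG β) : (g⁻¹).c = -g.c + β g.v g.v := rfl
@[simp] theorem inv_v (g : HG β) : (g⁻¹).v = -g.v := rfl

instance : Group (HG β) :=
  Group.ofLeftAxioms
    (by
      intro a b c
      ext
      · simp only [mul_c, mul_v, map_add, AddMonoidHom.add_apply]
        abel
      · simp only [mul_v]
        abel)
    (by
      intro a
      ext <;> simp)
    (by
      intro a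
      ext <;> simp)

/-- the bijection of `HG β` with the product -/
def toProd : HG β ≃ T × K where
  toFun g := (g.c, g.v)
  invFun p := ⟨p.1, p.2⟩
  left_inv _ := rfl
  right_inv _ := rfl

/-- the product topology -/
instance [TopologicalSpace K] : TopologicalSpace (HG β) :=
  TopologicalSpace.induced (toProd β) inferInstance

/-- `HG β` is homeomorphic to the product -/
def homeo [TopologicalSpace K] : HG β ≃ₜ T × K :=
  (toProd β).toHomeomorphOfIsInducing ⟨rfl⟩

@[simp] theorem homeo_apply [TopologicalSpace K] (g : HG β) : homeo β g = (g.c, g.v) := rfl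
@[simp] theorem homeo_symm_apply [TopologicalSpace K] (p : T × K) :
    (homeo β).symm p = ⟨p.1, p.2⟩ := rfl

end HG

/-! ### Mumford groups and generalized Heisenberg groups -/

/-- `G` is a locally compact Mumford group with centre `Z(G) ≅ ℝ/ℤ`: a locally compact Hausdorff
group, all commutators are central, there is an isomorphism `φ` of topological groups from the centre
onto `ℝ/ℤ`, and the Mumford map `M`, `M(x Z(G)) (y Z(G)) = φ(x y x⁻¹ y⁻¹)`, is an isomorphism of
topological groups from `K = G/Z(G)` onto the Pontryagin dual of `K` (the group of the continuous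
characters with the compact-open topology). -/
def IsMumford (G : Type) [Group G] [TopologicalSpace G] : Prop :=
  IsTopologicalGroup G ∧ LocallyCompactSpace G ∧ T2Space G ∧
  ∃ (h : ∀ x y : G, x * y * x⁻¹ * y⁻¹ ∈ Subgroup.center G)
    (φ : Subgroup.center G ≃ₜ* Multiplicative UnitAddCircle)
    (M : (G ⧸ Subgroup.center G) ≃ₜ*
      ((G ⧸ Subgroup.center G) →ₜ* Multiplicative UnitAddCircle)),
    ∀ x y : G, M (QuotientGroup.mk x) (QuotientGroup.mk y) =
      φ ⟨x * y * x⁻¹ * y⁻¹, h x y⟩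

/-- `G` is a generalized Heisenberg group: there are topological abelian groups `A`, `E`, `F`, a
continuous bilinear map `ω : E × F → A` and an isomorphism of topological groups `e` of `G` with the
group `A × E × F` with the product topology and the product
`(a, b, c) (a', b', c') = (a + a' + ω(b, c'), b + b', c + c')`. -/
def IsGenHeisenberg (G : Type) [Group G] [TopologicalSpace G] : Prop :=
  ∃ (A E F : Type) (_ : AddCommGroup A) (_ : TopologicalSpace A) (_ : IsTopologicalAddGroup A)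
    (_ : AddCommGroup E) (_ : TopologicalSpace E) (_ : IsTopologicalAddGroup E)
    (_ : AddCommGroup F) (_ : TopologicalSpace F) (_ : IsTopologicalAddGroup F)
    (ω : E →+ F →+ A) (e : G ≃ₜ A × E × F),
    Continuous (fun p : E × F => ω p.1 p.2) ∧
    ∀ g h : G, e (g * h) = ((e g).1 + (e h).1 + ω (e g).2.1 (e h).2.2,
      (e g).2.1 + (e h).2.1, (e g).2.2 + (e h).2.2)

end Pool.Agent.N58.MH
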