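import Mathlib
import Pool.Agent.N58.MH.Defs

/-!
# Project MH, part L1: the finite group with its Lagrangian subgroup does not split
-/

set_option autoImplicit false

namespace Pool.Agent.N58.MH

namespace L1

/-- integer coordinates -/
def mk (n : ℕ) (a b c d : ℤ) : Kn n :=
  (((a : ZMod (n ^ 8)), (b : ZMod (n ^ 8))), ((c : ZMod (n ^ 4)), (d : ZMod (n ^ 4))))

theorem mk_surj (n : ℕ) (x : Kn n) : ∃ a b c d : ℤ, x = mk n a b c d := by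
  obtain ⟨⟨x1, x2⟩, y1, y2⟩ := x
  obtain ⟨a, rfl⟩ := ZMod.intCast_surjective x1
  obtain ⟨b, rfl⟩ := ZMod.intCast_surjective x2
  obtain ⟨c, rfl⟩ := ZMod.intCast_surjective y1
  obtain ⟨d, rfl⟩ := ZMod.intCast_surjective y2
  exact ⟨a, b, c, d, rfl⟩

theorem mk_add (n : ℕ) (a b c d a' b' c' d' : ℤ) :
    mk n a b c d + mk n a' b' c' d' = mk n (a + a') (b + b') (c + c') (d + d') := by
  simp [mk]

theorem mk_sub (n : ℕ) (a b c d a' b' c' d' : ℤ) :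
    mk n a b c d - mk n a' b' c' d' = mk n (a - a') (b - b') (c - c') (d - d') := by
  simp [mk]

theorem zsmul_mk (n : ℕ) (k a b c d : ℤ) :
    k • mk n a b c d = mk n (k * a) (k * b) (k * c) (k * d) := by
  simp [mk]

theorem form_mk (n : ℕ) [NeZero n] (a b c d a' b' c' d' : ℤ) :
    form n (mk n a b c d) (mk n a' b' c' d') =
      ((((((a * b' - b * a') - (n : ℤ) ^ 4 * (c * d' - d * c') : ℤ) : ℝ)) / ((n : ℝ) ^ 8) : ℝ) : T) := by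
  have hn : (n : ℝ) ≠ 0 := Nat.cast_ne_zero.2 (NeZero.ne n)
  rw [form_apply]
  simp only [mk]
  rw [show ((a : ZMod (n ^ 8)) * (b' : ZMod (n ^ 8)) - (b : ZMod (n ^ 8)) * (a' : ZMod (n ^ 8))) =
      ((a * b' - b * a' : ℤ) : ZMod (n ^ 8)) by push_cast; ring,
    show ((c : ZMod (n ^ 4)) * (d' : ZMod (n ^ 4)) - (d : ZMod (n ^ 4)) * (c' : ZMod (n ^ 4))) =
      ((c * d' - d * c' : ℤ) : ZMod (n ^ 4)) by push_cast; ring,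
    ZMod.toAddCircle_intCast, ZMod.toAddCircle_intCast, ← AddCircle.coe_sub]
  congr 1
  push_cast
  field_simp

theorem form_eq (n : ℕ) [NeZero n] (a b c d a' b' c' d' e f g h e' f' g' h' : ℤ)
    (H : form n (mk n a b c d) (mk n a' b' c' d') = form n (mk n e f g h) (mk n e' f' g' h')) :
    (n : ℤ) ^ 8 ∣ ((a * b' - b * a') - (n : ℤ) ^ 4 * (c * d' - d * c')) -
      ((e * f' - f * e') - (n : ℤ) ^ 4 * (g * h' - h * g')) := by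
  have hn : (n : ℝ) ≠ 0 := Nat.cast_ne_zero.2 (NeZero.ne n)
  rw [form_mk, form_mk, ← sub_eq_zero, ← AddCircle.coe_sub, AddCircle.coe_eq_zero_iff] at H
  obtain ⟨k, hk⟩ := H
  refine ⟨k, ?_⟩
  have h2 : ((n : ℝ) ^ 8) ≠ 0 := pow_ne_zero _ hn
  rw [← sub_div, eq_div_iff h2] at hk
  simp only [zsmul_eq_mul, mul_one] at hk
  have h3 : ((((a * b' - b * a') - (n : ℤ) ^ 4 * (c * d' - d * c')) -
      ((e * f' - f * e') - (n : ℤ) ^ 4 * (g * h' - h * g')) : ℤ) : ℝ) =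
      (((n : ℤ) ^ 8 * k : ℤ) : ℝ) := by
    push_cast at hk ⊢
    linarith
  exact_mod_cast h3

/-- the coordinates of the elements of the Lagrangian subgroup -/
theorem of_mem_Lag (n : ℕ) (x1 x2 y1 y2 : ℤ) (h : mk n x1 x2 y1 y2 ∈ Lag n) :
    (n : ℤ) ^ 6 ∣ x1 + (n : ℤ) ^ 2 * y1 ∧ (n : ℤ) ^ 4 ∣ x2 + (n : ℤ) ^ 2 * y2 - n * y1 := by
  rw [mem_Lag] at h
  obtain ⟨a, b, c, h⟩ := h
  simp only [mk, Prod.mk.injEq] at h
  obtain ⟨⟨h1, h2⟩, h3, h4⟩ := h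
  rw [ZMod.intCast_eq_intCast_iff_dvd_sub] at h1 h2 h3 h4
  obtain ⟨t1, h1⟩ := h1
  obtain ⟨t2, h2⟩ := h2
  obtain ⟨t3, h3⟩ := h3
  obtain ⟨t4, h4⟩ := h4
  push_cast at h1 h2 h3 h4
  have e1 : x1 = (n : ℤ) ^ 4 * b - (n : ℤ) ^ 8 * t1 := by linarith
  have e2 : x2 = -(n : ℤ) ^ 2 * a - (n : ℤ) ^ 8 * t2 := by linarith
  have e3 : y1 = -(n : ℤ) ^ 2 * b - (n : ℤ) ^ 4 * t3 := by linarith
  have e4 : y2 = a - n * b + (n : ℤ) ^ 2 * c - (n : ℤ) ^ 4 * t4 := by linarith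
  constructor
  · exact ⟨-(n : ℤ) ^ 2 * t1 - t3, by rw [e1, e3]; ring⟩
  · exact ⟨-(n : ℤ) ^ 4 * t2 + c - (n : ℤ) ^ 2 * t4 + n * t3, by rw [e2, e3, e4]; ring⟩

theorem mk_mem_Lag (n : ℕ) (a b c : ℤ) :
    mk n ((n : ℤ) ^ 4 * b) (-(n : ℤ) ^ 2 * a) (-(n : ℤ) ^ 2 * b) (a - n * b + (n : ℤ) ^ 2 * c) ∈
      Lag n := by
  rw [mem_Lag]
  exact ⟨a, b, c, rfl⟩

end L1

open L1

theorem no_split (n : ℕ) (hn : 2 ≤ n) [NeZero n] (π : Kn n →+ Kn n)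
    (hL : ∀ x ∈ Lag n, π x ∈ Lag n) (h2 : ∀ x, π (π x) = π x)
    (h1 : ∀ x y, form n (π x) (π y) = 0) (h3 : ∀ x y, form n (x - π x) (y - π y) = 0) :
    False := by
  have hn0 : (n : ℤ) ≠ 0 := by exact_mod_cast NeZero.ne n
  have key : ∀ x y, form n (π x) y = form n x (y - π y) := by
    intro x y
    have e3 := h3 x y
    have e1 := h1 x y
    have e4 : form n (x - π x) = form n x - form n (π x) := map_sub _ _ _
    rw [e4, AddMonoidHom.sub_apply, sub_eq_zero] at e3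
    rw [e3, map_sub, e1, sub_zero]
  obtain ⟨x1, x2, y1, y2, E1⟩ := mk_surj n (π (mk n 1 0 0 0))
  obtain ⟨x1', x2', y1', y2', E2⟩ := mk_surj n (π (mk n 0 1 0 0))
  obtain ⟨x1'', x2'', y1'', y2'', E3⟩ := mk_surj n (π (mk n (-(n : ℤ) ^ 2) n 1 0))
  -- the three symplectic relations
  have r12 : (n : ℤ) ^ 8 ∣ x1 + x2' - 1 := by
    have h := key (mk n 1 0 0 0) (mk n 0 1 0 0)
    rw [E1, E2, mk_sub] at h
    have h' := form_eq n _ _ _ _ _ _ _ _ _ _ _ _ _ _ _ _ h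
    convert h' using 1
    ring
  have r13 : (n : ℤ) ^ 8 ∣ n * x1 + (n : ℤ) ^ 2 * x2 + (n : ℤ) ^ 4 * y2 + x2'' - n := by
    have h := key (mk n 1 0 0 0) (mk n (-(n : ℤ) ^ 2) n 1 0)
    rw [E1, E3, mk_sub] at h
    have h' := form_eq n _ _ _ _ _ _ _ _ _ _ _ _ _ _ _ _ h
    convert h' using 1
    ring
  have r23 : (n : ℤ) ^ 8 ∣ n * x1' + (n : ℤ) ^ 2 * x2' + (n : ℤ) ^ 4 * y2' - x1'' -
      (n : ℤ) ^ 2 := by
    have h := key (mk n 0 1 0 0) (mk n (-(n : ℤ) ^ 2) n 1 0)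
    rw [E2, E3, mk_sub] at h
    have h' := form_eq n _ _ _ _ _ _ _ _ _ _ _ _ _ _ _ _ h
    convert h' using 1
    ring
  -- the Lagrangian subgroup
  have l2 : (n : ℤ) ^ 2 ∣ x1' + (n : ℤ) ^ 2 * y1' := by
    have hm := mk_mem_Lag n (-(n : ℤ) ^ 2) 0 1
    have hm2 := hL _ hm
    rw [show mk n ((n : ℤ) ^ 4 * 0) (-(n : ℤ) ^ 2 * -(n : ℤ) ^ 2) (-(n : ℤ) ^ 2 * 0)
      (-(n : ℤ) ^ 2 - n * 0 + (n : ℤ) ^ 2 * 1) = ((n : ℤ) ^ 4) • mk n 0 1 0 0 by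
        rw [zsmul_mk]; congr 1 <;> ring, map_zsmul, E2, zsmul_mk] at hm2
    obtain ⟨t, ht⟩ := (of_mem_Lag n _ _ _ _ hm2).1
    refine ⟨t, ?_⟩
    apply mul_left_cancel₀ (pow_ne_zero 4 hn0)
    rw [← mul_assoc, ← pow_add, ← ht]
    ring
  have l3 : (n : ℤ) ^ 4 ∣ x1'' + (n : ℤ) ^ 2 * y1'' ∧
      (n : ℤ) ^ 2 ∣ x2'' + (n : ℤ) ^ 2 * y2'' - n * y1'' := by
    have hm := mk_mem_Lag n (-(n : ℤ)) (-1) 0
    have hm2 := hL _ hm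
    rw [show mk n ((n : ℤ) ^ 4 * -1) (-(n : ℤ) ^ 2 * -(n : ℤ)) (-(n : ℤ) ^ 2 * -1)
      (-(n : ℤ) - n * -1 + (n : ℤ) ^ 2 * 0) =
        ((n : ℤ) ^ 2) • mk n (-(n : ℤ) ^ 2) n 1 0 by
        rw [zsmul_mk]; congr 1 <;> ring, map_zsmul, E3, zsmul_mk] at hm2
    obtain ⟨⟨t, ht⟩, s, hs⟩ := of_mem_Lag n _ _ _ _ hm2
    constructor
    · refine ⟨t, ?_⟩
      apply mul_left_cancel₀ (pow_ne_zero 2 hn0)
      rw [← mul_assoc, ← pow_add, ← ht]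
      ring
    · refine ⟨s, ?_⟩
      apply mul_left_cancel₀ (pow_ne_zero 2 hn0)
      rw [← mul_assoc, ← pow_add, ← hs]
      ring
  -- idempotent
  have id1 : (n : ℤ) ^ 6 ∣ (x1 - (x1 + (n : ℤ) ^ 2 * y1) * x1 -
      (x2 + (n : ℤ) ^ 2 * y2 - n * y1) * x1' - y1 * x1'') +
      (n : ℤ) ^ 2 * (y1 - (x1 + (n : ℤ) ^ 2 * y1) * y1 -
      (x2 + (n : ℤ) ^ 2 * y2 - n * y1) * y1' - y1 * y1'') := by
    have hm := mk_mem_Lag n y2 0 0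
    have hm2 := hL _ hm
    have hdec : mk n ((n : ℤ) ^ 4 * 0) (-(n : ℤ) ^ 2 * y2) (-(n : ℤ) ^ 2 * 0)
        (y2 - n * 0 + (n : ℤ) ^ 2 * 0) =
        mk n x1 x2 y1 y2 - (x1 + (n : ℤ) ^ 2 * y1) • mk n 1 0 0 0 -
          (x2 + (n : ℤ) ^ 2 * y2 - n * y1) • mk n 0 1 0 0 -
          y1 • mk n (-(n : ℤ) ^ 2) n 1 0 := by
      rw [zsmul_mk, zsmul_mk, zsmul_mk, mk_sub, mk_sub, mk_sub]
      congr 1 <;> ring
    rw [hdec, map_sub, map_sub, map_sub, map_zsmul, map_zsmul, map_zsmul, ← E1, h2, E1, E2, E3,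
      zsmul_mk, zsmul_mk, zsmul_mk, mk_sub, mk_sub, mk_sub] at hm2
    exact (of_mem_Lag n _ _ _ _ hm2).1
  -- the final computation
  obtain ⟨u, hu⟩ := r12
  obtain ⟨v, hv⟩ := r13
  obtain ⟨w, hw⟩ := r23
  obtain ⟨p, hp⟩ := l2
  obtain ⟨⟨q, hq⟩, r, hr⟩ := l3
  obtain ⟨z, hz⟩ := id1
  have a1 : (n : ℤ) ∣ x1 + y1'' - 1 := by
    refine ⟨(n : ℤ) ^ 6 * v - x2 - (n : ℤ) ^ 2 * y2 - r + y2'', ?_⟩
    apply mul_left_cancel₀ hn0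
    linear_combination hv - hr
  have a2 : (n : ℤ) ∣ x2' + y1'' - 1 := by
    refine ⟨(n : ℤ) ^ 5 * w - p + y1' - (n : ℤ) * y2' + (n : ℤ) * q, ?_⟩
    apply mul_left_cancel₀ (pow_ne_zero 2 hn0)
    linear_combination hw - (n : ℤ) * hp + hq
  have a0 : (n : ℤ) ∣ x1 + x2' - 1 := ⟨(n : ℤ) ^ 7 * u, by rw [hu]; ring⟩
  have a3 : (n : ℤ) ∣ x1 - x1 * x1 := by
    refine ⟨(n : ℤ) ^ 5 * z - n * y1 + (x1 + (n : ℤ) ^ 2 * y1) * (n * y1) + n * y1 * x1 +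
      (x2 + (n : ℤ) ^ 2 * y2 - n * y1) * (n * p) + y1 * ((n : ℤ) ^ 3 * q), ?_⟩
    linear_combination hz + (x2 + (n : ℤ) ^ 2 * y2 - n * y1) * hp + y1 * hq
  have b1 : (n : ℤ) ∣ 2 * x1 - 1 := by
    have := (a0.add a1).sub a2
    rwa [show (x1 + x2' - 1) + (x1 + y1'' - 1) - (x2' + y1'' - 1) = 2 * x1 - 1 by ring] at this
  have b2 : (n : ℤ) ∣ 1 := by
    have h4 : (n : ℤ) ∣ 4 * (x1 - x1 * x1) := a3.mul_left 4
    have h5 : (n : ℤ) ∣ (2 * x1 - 1) * (2 * x1 - 1) := b1.mul_left _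
    have := h4.add h5
    rwa [show 4 * (x1 - x1 * x1) + (2 * x1 - 1) * (2 * x1 - 1) = 1 by ring] at this
  have h6 := Int.le_of_dvd one_pos b2
  omega

end Pool.Agent.N58.MH
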