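import Pool.Agent.N58.MH.Defs

/-!
# The Lagrangian subgroup and the duality of the finite group (helper556)
-/

set_option autoImplicit false

namespace Pool.Agent.N58.MH

theorem form_int (n : ℕ) [NeZero n] (a1 a2 b1 b2 c1 c2 d1 d2 : ℤ) :
    form n (((a1 : ZMod (n ^ 8)), (a2 : ZMod (n ^ 8))), ((b1 : ZMod (n ^ 4)), (b2 : ZMod (n ^ 4))))
      (((c1 : ZMod (n ^ 8)), (c2 : ZMod (n ^ 8))), ((d1 : ZMod (n ^ 4)), (d2 : ZMod (n ^ 4)))) =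
    ZMod.toAddCircle
      (((a1 * c2 - a2 * c1 - (n : ℤ) ^ 4 * (b1 * d2 - b2 * d1) : ℤ)) : ZMod (n ^ 8)) := by
  rw [form_apply]
  have h1 : ((a1 : ZMod (n ^ 8)) * (c2 : ZMod (n ^ 8)) - (a2 : ZMod (n ^ 8)) * (c1 : ZMod (n ^ 8)))
      = ((a1 * c2 - a2 * c1 : ℤ) : ZMod (n ^ 8)) := by push_cast; ring
  have h2 : ((b1 : ZMod (n ^ 4)) * (d2 : ZMod (n ^ 4)) - (b2 : ZMod (n ^ 4)) * (d1 : ZMod (n ^ 4)))
      = ((b1 * d2 - b2 * d1 : ℤ) : ZMod (n ^ 4)) := by push_cast; ring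
  simp only [h1, h2]
  rw [ZMod.toAddCircle_intCast, ZMod.toAddCircle_intCast, ZMod.toAddCircle_intCast,
    ← AddCircle.coe_sub]
  congr 1
  have hn : (n : ℝ) ≠ 0 := by exact_mod_cast NeZero.ne n
  push_cast
  field_simp

theorem form_int_zero (n : ℕ) [NeZero n] (a1 a2 b1 b2 c1 c2 d1 d2 : ℤ) :
    form n (((a1 : ZMod (n ^ 8)), (a2 : ZMod (n ^ 8))), ((b1 : ZMod (n ^ 4)), (b2 : ZMod (n ^ 4))))
      (((c1 : ZMod (n ^ 8)), (c2 : ZMod (n ^ 8))), ((d1 : ZMod (n ^ 4)), (d2 : ZMod (n ^ 4)))) = 0 ↔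
    (n : ℤ) ^ 8 ∣ (a1 * c2 - a2 * c1 - (n : ℤ) ^ 4 * (b1 * d2 - b2 * d1)) := by
  rw [form_int, ZMod.toAddCircle_eq_zero, ZMod.intCast_zmod_eq_zero_iff_dvd]
  push_cast
  rfl

theorem int_lift (n : ℕ) (x : Kn n) : ∃ a1 a2 b1 b2 : ℤ,
    x = (((a1 : ZMod (n ^ 8)), (a2 : ZMod (n ^ 8))),
      ((b1 : ZMod (n ^ 4)), (b2 : ZMod (n ^ 4)))) := by
  obtain ⟨a1, h1⟩ := ZMod.intCast_surjective x.1.1
  obtain ⟨a2, h2⟩ := ZMod.intCast_surjective x.1.2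
  obtain ⟨b1, h3⟩ := ZMod.intCast_surjective x.2.1
  obtain ⟨b2, h4⟩ := ZMod.intCast_surjective x.2.2
  exact ⟨a1, a2, b1, b2, by rw [h1, h2, h3, h4]⟩

theorem mem_lag_iff (n : ℕ) [NeZero n] (x : Kn n) :
    x ∈ Lag n ↔ ∀ l ∈ Lag n, form n l x = 0 := by
  have hn : (n : ℤ) ≠ 0 := by exact_mod_cast NeZero.ne n
  constructor
  · rintro ⟨a, b, c, rfl⟩ l ⟨a', b', c', rfl⟩
    rw [form_int_zero]
    exact ⟨b' * c - c' * b, by ring⟩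
  · intro h
    obtain ⟨x1, x2, y1, y2, rfl⟩ := int_lift n x
    have h1 := h _ ((mem_Lag n _).2 ⟨1, 0, 0, rfl⟩)
    have h2 := h _ ((mem_Lag n _).2 ⟨0, 0, 1, rfl⟩)
    have h3 := h _ ((mem_Lag n _).2 ⟨0, 1, 0, rfl⟩)
    rw [form_int_zero] at h1 h2 h3
    obtain ⟨t, ht⟩ := h1
    obtain ⟨b0, hb⟩ := h2
    obtain ⟨s, hs⟩ := h3
    have e1 : y1 = (n : ℤ) ^ 2 * b0 := by
      apply mul_left_cancel₀ (pow_ne_zero 6 hn)
      linear_combination hb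
    have e2 : x1 = -(n : ℤ) ^ 2 * y1 + (n : ℤ) ^ 6 * t := by
      apply mul_left_cancel₀ (pow_ne_zero 2 hn)
      linear_combination ht
    have e3 : x2 = (n : ℤ) * y1 - (n : ℤ) ^ 2 * y2 + (n : ℤ) ^ 4 * s := by
      apply mul_left_cancel₀ (pow_ne_zero 4 hn)
      linear_combination hs
    refine (mem_Lag n _).2 ⟨y2 - n * b0 - (n : ℤ) ^ 2 * s, -b0 + (n : ℤ) ^ 2 * t, s + n * t, ?_⟩
    rw [show (n : ℤ) ^ 4 * (-b0 + (n : ℤ) ^ 2 * t) = x1 by rw [e2, e1]; ring,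
      show -(n : ℤ) ^ 2 * (y2 - n * b0 - (n : ℤ) ^ 2 * s) = x2 by rw [e3, e1]; ring,
      show y2 - n * b0 - (n : ℤ) ^ 2 * s - n * (-b0 + (n : ℤ) ^ 2 * t) + (n : ℤ) ^ 2 * (s + n * t)
        = y2 by ring]
    have e4 : ((-(n : ℤ) ^ 2 * (-b0 + (n : ℤ) ^ 2 * t) : ℤ) : ZMod (n ^ 4)) =
        ((y1 : ℤ) : ZMod (n ^ 4)) := by
      rw [ZMod.intCast_eq_intCast_iff_dvd_sub, e1]
      push_cast
      exact ⟨t, by ring⟩
    rw [e4]

theorem form_self (n : ℕ) [NeZero n] (x y : Kn n) : form n x y = - form n y x := by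
  rw [form_apply, form_apply]
  rw [show x.1.1 * y.1.2 - x.1.2 * y.1.1 = -(y.1.1 * x.1.2 - y.1.2 * x.1.1) by ring,
    show x.2.1 * y.2.2 - x.2.2 * y.2.1 = -(y.2.1 * x.2.2 - y.2.2 * x.2.1) by ring, map_neg, map_neg]
  abel

theorem form_nondeg (n : ℕ) [NeZero n] (x : Kn n) (h : ∀ y, form n x y = 0) : x = 0 := by
  have h1 := h ((1, 0), (0, 0))
  have h2 := h ((0, 1), (0, 0))
  have h3 := h ((0, 0), (1, 0))
  have h4 := h ((0, 0), (0, 1))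
  rw [form_apply] at h1 h2 h3 h4
  simp only [mul_zero, mul_one, zero_sub, sub_zero, map_zero, ZMod.toAddCircle_eq_zero,
    neg_eq_zero, map_neg] at h1 h2 h3 h4
  obtain ⟨⟨a, b⟩, c, d⟩ := x
  simp only at h1 h2 h3 h4
  subst h1 h2 h3 h4
  rfl

theorem ex_toAddCircle (N : ℕ) [NeZero N] (t : T) (h : N • t = 0) :
    ∃ z : ZMod N, ZMod.toAddCircle z = t := by
  obtain ⟨r, rfl⟩ := QuotientAddGroup.mk_surjective t
  have h' : ((N • r : ℝ) : UnitAddCircle) = 0 := by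
    rw [AddCircle.coe_nsmul]; exact h
  rw [AddCircle.coe_eq_zero_iff] at h'
  obtain ⟨k, hk⟩ := h'
  refine ⟨(k : ZMod N), ?_⟩
  rw [ZMod.toAddCircle_intCast]
  have hN : (N : ℝ) ≠ 0 := by exact_mod_cast NeZero.ne N
  have : (k : ℝ) / N = r := by
    rw [div_eq_iff hN]
    simp only [zsmul_eq_mul, mul_one, nsmul_eq_mul] at hk
    linarith
  rw [this]

theorem hom_ext_kn (n : ℕ) (f g : Kn n →+ T) (h1 : f ((1, 0), (0, 0)) = g ((1, 0), (0, 0)))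
    (h2 : f ((0, 1), (0, 0)) = g ((0, 1), (0, 0))) (h3 : f ((0, 0), (1, 0)) = g ((0, 0), (1, 0)))
    (h4 : f ((0, 0), (0, 1)) = g ((0, 0), (0, 1))) (y : Kn n) : f y = g y := by
  obtain ⟨a, b, c, d, rfl⟩ := int_lift n y
  have e : ((((a : ZMod (n ^ 8)), (b : ZMod (n ^ 8))), ((c : ZMod (n ^ 4)), (d : ZMod (n ^ 4)))) :
      Kn n) = a • (((1, 0), (0, 0)) : Kn n) + b • (((0, 1), (0, 0)) : Kn n) +
      c • (((0, 0), (1, 0)) : Kn n) + d • (((0, 0), (0, 1)) : Kn n) := by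
    simp [Prod.smul_mk]
  rw [e]
  simp only [map_add, map_zsmul, h1, h2, h3, h4]

theorem form_surj (n : ℕ) [NeZero n] (χ : Kn n →+ T) : ∃ x, ∀ y, form n x y = χ y := by
  have k1 : (n ^ 8) • χ ((1, 0), (0, 0)) = 0 := by
    rw [← map_nsmul]
    have : (n ^ 8) • (((1, 0), (0, 0)) : Kn n) = 0 := by
      simp [Prod.smul_mk]
    rw [this, map_zero]
  have k2 : (n ^ 8) • χ ((0, 1), (0, 0)) = 0 := by
    rw [← map_nsmul]
    have : (n ^ 8) • (((0, 1), (0, 0)) : Kn n) = 0 := by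
      simp [Prod.smul_mk]
    rw [this, map_zero]
  have k3 : (n ^ 4) • χ ((0, 0), (1, 0)) = 0 := by
    rw [← map_nsmul]
    have : (n ^ 4) • (((0, 0), (1, 0)) : Kn n) = 0 := by
      simp [Prod.smul_mk]
    rw [this, map_zero]
  have k4 : (n ^ 4) • χ ((0, 0), (0, 1)) = 0 := by
    rw [← map_nsmul]
    have : (n ^ 4) • (((0, 0), (0, 1)) : Kn n) = 0 := by
      simp [Prod.smul_mk]
    rw [this, map_zero]
  obtain ⟨z1, h1⟩ := ex_toAddCircle _ _ k1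
  obtain ⟨z2, h2⟩ := ex_toAddCircle _ _ k2
  obtain ⟨z3, h3⟩ := ex_toAddCircle _ _ k3
  obtain ⟨z4, h4⟩ := ex_toAddCircle _ _ k4
  refine ⟨((z2, -z1), (-z4, z3)), ?_⟩
  apply hom_ext_kn
  · rw [form_apply, ← h1]
    simp
  · rw [form_apply, ← h2]
    simp
  · rw [form_apply, ← h3]
    simp
  · rw [form_apply, ← h4]
    simp

end Pool.Agent.N58.MH
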