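import Pool.Agent.N58.MH.Defs

/-!
# Restricted products of finite groups with pairings
-/

set_option autoImplicit false

namespace Pool.Agent.N58.MH

open RestrictedProduct Filter Topology

/-! ### No small subgroups of the circle -/

theorem norm_two_nsmul (t : T) (h : ‖t‖ < 1 / 4) : ‖(2 : ℕ) • t‖ = 2 * ‖t‖ := by
  obtain ⟨x, rfl⟩ := QuotientAddGroup.mk_surjective t
  have h1 : ‖((x : ℝ) : T)‖ = |x - round x| := UnitAddCircle.norm_eq
  have h1' : ‖(QuotientAddGroup.mk x : T)‖ = |x - round x| := h1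
  have h2 : ((x - round x : ℝ) : T) = ((x : ℝ) : T) := by
    rw [AddCircle.coe_sub]
    have : ((round x : ℝ) : T) = 0 := by
      rw [AddCircle.coe_eq_zero_iff]
      exact ⟨round x, by simp⟩
    rw [this, sub_zero]
  have h3 : (2 : ℕ) • (QuotientAddGroup.mk x : T) = ((2 * (x - round x) : ℝ) : T) := by
    rw [← h2, ← AddCircle.coe_nsmul]
    simp
  have h4 : |x - round x| < 1 / 4 := by rw [← h1']; exact h
  rw [h3, (AddCircle.norm_coe_eq_abs_iff 1 one_ne_zero).2, h1', abs_mul]
  · simp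
  · rw [abs_mul]
    simp only [Nat.abs_ofNat, abs_one]
    linarith

theorem no_small (H : AddSubgroup T) (h : ∀ t ∈ H, ‖t‖ < 1 / 4) (t : T) (ht : t ∈ H) : t = 0 := by
  have h1 : ∀ k : ℕ, ‖(2 ^ k : ℕ) • t‖ = 2 ^ k * ‖t‖ := by
    intro k
    induction k with
    | zero => simp
    | succ k ih =>
      rw [pow_succ, mul_comm (2 ^ k) 2, mul_smul, norm_two_nsmul _ (h _ (H.nsmul_mem ht _)), ih]
      ring
  by_contra hne
  have hpos : 0 < ‖t‖ := norm_pos_iff.2 hne
  obtain ⟨k, hk⟩ := pow_unbounded_of_one_lt (1 / 4 / ‖t‖) (one_lt_two : (1 : ℝ) < 2)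
  have h2 := h _ (H.nsmul_mem ht (2 ^ k))
  rw [h1 k] at h2
  rw [div_lt_iff₀ hpos] at hk
  linarith

/-! ### Restricted products -/

section RP

set_option linter.unusedSectionVars false

variable {ι : Type} {R : ι → Type} [∀ i, AddCommGroup (R i)] [∀ i, TopologicalSpace (R i)]
  [∀ i, DiscreteTopology (R i)] (B : ∀ i, AddSubgroup (R i))

/-- the restricted product of the `R i` with respect to the `B i` -/
abbrev RP : Type := Πʳ i, [R i, B i]

variable {B}

theorem finite_bad (x : RP B) : {i | ¬ x i ∈ B i}.Finite := Filter.eventually_cofinite.1 x.2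

theorem finite_support (b : ∀ i, R i →+ R i →+ T) (hb : ∀ i, ∀ x ∈ B i, ∀ y ∈ B i, b i x y = 0)
    (x y : RP B) : (Function.support fun i => b i (x i) (y i)).Finite := by
  have hx := x.2
  have hy := y.2
  have h := hx.and hy
  rw [Filter.eventually_cofinite] at h
  refine h.subset ?_
  intro i hi h'
  exact hi (hb i _ h'.1 _ h'.2)

/-- the sum of pairings -/
noncomputable def pairing (b : ∀ i, R i →+ R i →+ T)
    (hb : ∀ i, ∀ x ∈ B i, ∀ y ∈ B i, b i x y = 0) : RP B →+ RP B →+ T :=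
  AddMonoidHom.mk' (fun x => AddMonoidHom.mk' (fun y => ∑ᶠ i, b i (x i) (y i)) (by
    intro y z
    rw [← finsum_add_distrib (finite_support b hb x y) (finite_support b hb x z)]
    refine finsum_congr fun i => ?_
    rw [RestrictedProduct.add_apply, map_add])) (by
    intro x y
    ext z
    change ∑ᶠ i, b i ((x + y) i) (z i) = ∑ᶠ i, b i (x i) (z i) + ∑ᶠ i, b i (y i) (z i)
    rw [← finsum_add_distrib (finite_support b hb x z) (finite_support b hb y z)]
    refine finsum_congr fun i => ?_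
    rw [RestrictedProduct.add_apply, map_add, AddMonoidHom.add_apply])

theorem pairing_apply (b : ∀ i, R i →+ R i →+ T)
    (hb : ∀ i, ∀ x ∈ B i, ∀ y ∈ B i, b i x y = 0) (x y : RP B) :
    pairing b hb x y = ∑ᶠ i, b i (x i) (y i) := rfl

/-- the elements of the product of the `B i` with vanishing components in the finite set `S` -/
def US (B : ∀ i, AddSubgroup (R i)) (S : Set ι) : AddSubgroup (RP B) where
  carrier := {x | (∀ i, x i ∈ B i) ∧ ∀ i ∈ S, x i = 0}
  zero_mem' := ⟨fun i => (B i).zero_mem, fun i _ => rfl⟩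
  add_mem' := by
    rintro x y ⟨h1, h2⟩ ⟨h3, h4⟩
    refine ⟨fun i => (B i).add_mem (h1 i) (h3 i), fun i hi => ?_⟩
    rw [RestrictedProduct.add_apply, h2 i hi, h4 i hi, add_zero]
  neg_mem' := by
    rintro x ⟨h1, h2⟩
    refine ⟨fun i => (B i).neg_mem (h1 i), fun i hi => ?_⟩
    rw [RestrictedProduct.neg_apply, h2 i hi, neg_zero]

theorem isOpen_US (S : Set ι) (hS : S.Finite) : IsOpen (US B S : Set (RP B)) := by
  have h1 : IsOpen {x : RP B | ∀ i, x i ∈ B i} :=
    isOpen_forall_mem (fun i => isOpen_discrete (B i : Set (R i)))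
  have h2 : IsOpen (⋂ i ∈ S, {x : RP B | x i = 0}) := by
    refine hS.isOpen_biInter fun i _ => ?_
    exact (isOpen_discrete ({0} : Set (R i))).preimage (continuous_eval i)
  have h3 : (US B S : Set (RP B)) = {x : RP B | ∀ i, x i ∈ B i} ∩ ⋂ i ∈ S, {x : RP B | x i = 0} := by
    ext x
    simp [US]
  rw [h3]
  exact h1.inter h2

theorem US_mem_nhds (S : Set ι) (hS : S.Finite) : (US B S : Set (RP B)) ∈ 𝓝 0 :=
  (isOpen_US S hS).mem_nhds (US B S).zero_mem

instance fact_open : Fact (∀ i, IsOpen (B i : Set (R i))) := ⟨fun _ => isOpen_discrete _⟩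

theorem exists_US_subset (V : Set (RP B)) (hV : V ∈ 𝓝 (0 : RP B)) :
    ∃ S : Set ι, S.Finite ∧ (US B S : Set (RP B)) ⊆ V := by
  have h0 : structureMap R (fun i => (B i : Set (R i))) cofinite 0 = (0 : RP B) := rfl
  rw [← h0, nhds_zero_eq_map_structureMap (B := B) (R := R)
    (fun i => isOpen_discrete (B i : Set (R i)))] at hV
  rw [Filter.mem_map, nhds_pi, Filter.mem_pi] at hV
  obtain ⟨S, hS, t, ht, hsub⟩ := hV
  refine ⟨S, hS, ?_⟩
  rintro x ⟨h1, h2⟩
  have h3 := @hsub (fun i => ⟨x i, h1 i⟩) (by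
    intro i hi
    have h4 : (⟨x i, h1 i⟩ : B i) = 0 := Subtype.ext (h2 i hi)
    simp only [h4]
    exact mem_of_mem_nhds (ht i))
  exact h3

theorem pairing_eq_zero (b : ∀ i, R i →+ R i →+ T)
    (hb : ∀ i, ∀ x ∈ B i, ∀ y ∈ B i, b i x y = 0) (x y : RP B)
    (h : ∀ i, b i (x i) (y i) = 0) : pairing b hb x y = 0 := by
  rw [pairing_apply, finsum_congr h, finsum_zero]

theorem pairing_continuous (b : ∀ i, R i →+ R i →+ T)
    (hb : ∀ i, ∀ x ∈ B i, ∀ y ∈ B i, b i x y = 0) :
    Continuous fun p : RP B × RP B => pairing b hb p.1 p.2 := by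
  have key : ∀ (f : RP B → T) (S : Set ι), S.Finite → (∀ x ∈ US B S, f x = 0) →
      ContinuousAt f 0 := by
    intro f S hS h
    have h0 : f 0 = 0 := h 0 (US B S).zero_mem
    rw [ContinuousAt, h0]
    refine tendsto_const_nhds.congr' ?_
    filter_upwards [US_mem_nhds (B := B) S hS] with x hx
    exact (h x hx).symm
  refine continuous_of_continuousAt_zero₂ (pairing b hb) ?_ (fun x => ?_) (fun y => ?_)
  · rw [ContinuousAt]
    have h0 : pairing b hb ((0, 0) : RP B × RP B).1 ((0, 0) : RP B × RP B).2 = 0 := by simp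
    rw [h0]
    refine tendsto_const_nhds.congr' ?_
    have h1 : (US B (∅ : Set ι) : Set (RP B)) ×ˢ (US B (∅ : Set ι) : Set (RP B)) ∈
        𝓝 ((0, 0) : RP B × RP B) :=
      prod_mem_nhds (US_mem_nhds _ Set.finite_empty) (US_mem_nhds _ Set.finite_empty)
    filter_upwards [h1] with p hp
    exact (pairing_eq_zero b hb _ _ fun i => hb i _ (hp.1.1 i) _ (hp.2.1 i)).symm
  · refine key _ {i | ¬ x i ∈ B i} (finite_bad x) ?_
    rintro y ⟨h1, h2⟩
    refine pairing_eq_zero b hb _ _ fun i => ?_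
    by_cases hi : x i ∈ B i
    · exact hb i _ hi _ (h1 i)
    · rw [h2 i hi, map_zero]
  · refine key _ {i | ¬ y i ∈ B i} (finite_bad y) ?_
    rintro x ⟨h1, h2⟩
    refine pairing_eq_zero b hb _ _ fun i => ?_
    by_cases hi : y i ∈ B i
    · exact hb i _ (h1 i) _ hi
    · rw [h2 i hi, map_zero, AddMonoidHom.zero_apply]

/-- A continuous character vanishes on some `US B S`. -/
theorem char_trivial (χ : RP B →ₜ+ T) :
    ∃ S : Set ι, S.Finite ∧ ∀ x ∈ US B S, χ x = 0 := by
  have h1 : {x : RP B | ‖χ x‖ < 1 / 4} ∈ 𝓝 (0 : RP B) := by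
    refine (isOpen_lt (continuous_norm.comp χ.continuous_toFun) continuous_const).mem_nhds ?_
    change ‖χ 0‖ < 1 / 4
    rw [map_zero, norm_zero]
    norm_num
  obtain ⟨S, hS, hsub⟩ := exists_US_subset _ h1
  refine ⟨S, hS, fun x hx => ?_⟩
  refine no_small ((US B S).map χ.toAddMonoidHom) ?_ _ ⟨x, hx, rfl⟩
  rintro _ ⟨y, hy, rfl⟩
  exact hsub hy

theorem pairing_single [DecidableEq ι] (b : ∀ i, R i →+ R i →+ T)
    (hb : ∀ i, ∀ x ∈ B i, ∀ y ∈ B i, b i x y = 0) (x : RP B) (i : ι) (y : R i) :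
    pairing b hb x (single B i y) = b i (x i) y := by
  rw [pairing_apply, finsum_eq_single _ i]
  · rw [single_eq_same]
  · intro j hj
    rw [single_eq_of_ne _ _ hj, map_zero]

theorem single_mem_US [DecidableEq ι] (S : Set ι) (i : ι) (hi : i ∉ S) (y : R i) (hy : y ∈ B i) :
    single B i y ∈ US B S := by
  refine ⟨fun j => ?_, fun j hj => ?_⟩
  · by_cases h : j = i
    · subst h
      rw [single_eq_same]
      exact hy
    · rw [single_eq_of_ne _ _ h]
      exact (B j).zero_mem
  · rw [single_eq_of_ne]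
    rintro rfl
    exact hi hj

theorem pairing_surj (b : ∀ i, R i →+ R i →+ T)
    (hb : ∀ i, ∀ x ∈ B i, ∀ y ∈ B i, b i x y = 0)
    (hs : ∀ i (χ : R i →+ T), ∃ x, ∀ y, b i x y = χ y)
    (hL : ∀ i x, (∀ y ∈ B i, b i x y = 0) → x ∈ B i) (χ : RP B →ₜ+ T) :
    ∃ x, ∀ y, pairing b hb x y = χ y := by
  classical
  obtain ⟨S, hS, hχ⟩ := char_trivial χ
  have hadd : ∀ i (y z : R i), single B i (y + z) = single B i y + single B i z := by
    intro i y z
    exact single_add B i y z
  let sg : ∀ i, R i →+ RP B := fun i => AddMonoidHom.mk' (fun y => single B i y) (hadd i)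
  have hsg : ∀ i y, sg i y = single B i y := fun i y => rfl
  choose x hx using fun i => hs i (χ.toAddMonoidHom.comp (sg i))
  have hx' : ∀ i y, b i (x i) y = χ (single B i y) := fun i y => hx i y
  have hmem : ∀ i, i ∉ S → x i ∈ B i := by
    intro i hi
    refine hL i _ fun y hy => ?_
    rw [hx']
    exact hχ _ (single_mem_US S i hi y hy)
  let X : RP B := ⟨x, by
    rw [Filter.eventually_cofinite]
    refine hS.subset ?_
    intro i hi
    by_contra h
    exact hi (hmem i h)⟩
  have hX : ∀ i, X i = x i := fun i => rfl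
  refine ⟨X, fun y => ?_⟩
  have hfin : (S ∪ {i | ¬ y i ∈ B i}).Finite := hS.union (finite_bad y)
  set F : Finset ι := hfin.toFinset with hF
  have hF' : ∀ i, i ∈ F ↔ i ∈ S ∨ ¬ y i ∈ B i := by
    intro i
    simp [hF]
  have hsum : ∀ j, (∑ i ∈ F, single B i (y i)) j = if j ∈ F then y j else 0 := by
    intro j
    have h1 : (∑ i ∈ F, single B i (y i)) j = ∑ i ∈ F, (single B i (y i)) j := by
      exact map_sum (evalAddMonoidHom R j (B := B) (𝓕 := cofinite)) _ F
    rw [h1]
    split_ifs with hj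
    · rw [Finset.sum_eq_single j]
      · rw [single_eq_same]
      · intro i _ hij
        rw [single_eq_of_ne _ _ (Ne.symm hij)]
      · intro h
        exact absurd hj h
    · refine Finset.sum_eq_zero fun i hi => ?_
      rw [single_eq_of_ne]
      rintro rfl
      exact hj hi
  have hrest : y - ∑ i ∈ F, single B i (y i) ∈ US B S := by
    refine ⟨fun j => ?_, fun j hj => ?_⟩
    · rw [RestrictedProduct.sub_apply, hsum]
      split_ifs with hj
      · rw [sub_self]
        exact (B j).zero_mem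
      · rw [sub_zero]
        rw [hF'] at hj
        push Not at hj
        exact hj.2
    · rw [RestrictedProduct.sub_apply, hsum, if_pos ((hF' j).2 (Or.inl hj)), sub_self]
  have h1 : χ y = ∑ i ∈ F, b i (x i) (y i) := by
    have h2 : χ y = χ (y - ∑ i ∈ F, single B i (y i)) + χ (∑ i ∈ F, single B i (y i)) := by
      rw [← map_add, sub_add_cancel]
    rw [h2, hχ _ hrest, zero_add, map_sum]
    exact Finset.sum_congr rfl fun i _ => (hx' i _).symm
  rw [h1, pairing_apply]
  rw [finsum_eq_sum_of_support_subset]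
  · rfl
  · intro i hi
    rw [Finset.mem_coe, hF']
    by_contra h
    push Not at h
    exact hi (hb i _ (hmem i h.1) _ h.2)

theorem pairing_inj (b : ∀ i, R i →+ R i →+ T)
    (hb : ∀ i, ∀ x ∈ B i, ∀ y ∈ B i, b i x y = 0)
    (hn : ∀ i x, (∀ y, b i x y = 0) → x = 0) (x : RP B) (h : ∀ y, pairing b hb x y = 0) :
    x = 0 := by
  classical
  ext i
  refine hn i _ fun y => ?_
  rw [← pairing_single b hb x i y, h]

theorem pairing_mem (b : ∀ i, R i →+ R i →+ T)
    (hb : ∀ i, ∀ x ∈ B i, ∀ y ∈ B i, b i x y = 0)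
    (hL : ∀ i x, (∀ y ∈ B i, b i x y = 0) → x ∈ B i) (x : RP B)
    (h : ∀ y ∈ US B (∅ : Set ι), pairing b hb x y = 0) (i : ι) : x i ∈ B i := by
  classical
  refine hL i _ fun y hy => ?_
  rw [← pairing_single b hb x i y]
  exact h _ (single_mem_US ∅ i (fun h => h) y hy)

/-- the pairing as a homomorphism to the dual group -/
noncomputable def toDual (b : ∀ i, R i →+ R i →+ T)
    (hb : ∀ i, ∀ x ∈ B i, ∀ y ∈ B i, b i x y = 0) : RP B →+ (RP B →ₜ+ T) :=
  AddMonoidHom.mk' (fun x => ⟨pairing b hb x,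
    (pairing_continuous b hb).comp (continuous_const.prodMk continuous_id)⟩) (by
      intro x y
      ext z
      change pairing b hb (x + y) z = pairing b hb x z + pairing b hb y z
      rw [map_add, AddMonoidHom.add_apply])

theorem toDual_apply (b : ∀ i, R i →+ R i →+ T)
    (hb : ∀ i, ∀ x ∈ B i, ∀ y ∈ B i, b i x y = 0) (x y : RP B) :
    toDual b hb x y = pairing b hb x y := rfl

theorem toDual_continuous (b : ∀ i, R i →+ R i →+ T)
    (hb : ∀ i, ∀ x ∈ B i, ∀ y ∈ B i, b i x y = 0) : Continuous (toDual b hb) :=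
  ContinuousAddMonoidHom.continuous_of_continuous_uncurry _ (pairing_continuous b hb)

theorem isCompact_US [∀ i, Finite (R i)] : IsCompact (US B (∅ : Set ι) : Set (RP B)) := by
  have h : (US B (∅ : Set ι) : Set (RP B)) =
      Set.range (structureMap R (fun i => (B i : Set (R i))) cofinite) := by
    rw [range_structureMap]
    ext x
    simp [US]
    rfl
  rw [h]
  exact isCompact_range (isEmbedding_structureMap).continuous

theorem toDual_homeo [∀ i, Finite (R i)] (b : ∀ i, R i →+ R i →+ T)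
    (hb : ∀ i, ∀ x ∈ B i, ∀ y ∈ B i, b i x y = 0)
    (hs : ∀ i (χ : R i →+ T), ∃ x, ∀ y, b i x y = χ y)
    (hL : ∀ i x, (∀ y ∈ B i, b i x y = 0) → x ∈ B i)
    (hn : ∀ i x, (∀ y, b i x y = 0) → x = 0) :
    ∃ e : RP B ≃ₜ+ (RP B →ₜ+ T), ∀ x y, e x y = pairing b hb x y := by
  have hinj : Function.Injective (toDual b hb) := by
    rw [injective_iff_map_eq_zero]
    intro x hx
    refine pairing_inj b hb hn x fun y => ?_
    rw [← toDual_apply, hx]
    rfl
  have hsurj : Function.Surjective (toDual b hb) := by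
    intro χ
    obtain ⟨x, hx⟩ := pairing_surj b hb hs hL χ
    exact ⟨x, by ext y; exact hx y⟩
  have hopen : IsOpenMap (toDual b hb) := by
    rw [IsTopologicalAddGroup.isOpenMap_iff_nhds_zero]
    intro V hV
    rw [Filter.mem_map] at hV
    obtain ⟨U, hUV, hUo, hU0⟩ := mem_nhds_iff.1 hV
    have hc : IsCompact (toDual b hb '' ((US B (∅ : Set ι) : Set (RP B)) \ U)) :=
      (isCompact_US.diff hUo).image (toDual_continuous b hb)
    have hcl := hc.isClosed
    have hW : IsOpen {χ : RP B →ₜ+ T | Set.MapsTo χ (US B (∅ : Set ι) : Set (RP B))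
        {t : T | ‖t‖ < 1 / 4}} := by
      have h1 : IsOpen {f : C(RP B, T) | Set.MapsTo f (US B (∅ : Set ι) : Set (RP B))
          {t : T | ‖t‖ < 1 / 4}} :=
        ContinuousMap.isOpen_setOfPred_mapsTo isCompact_US
          (isOpen_lt continuous_norm continuous_const)
      exact h1.preimage (ContinuousAddMonoidHom.isInducing_toContinuousMap (RP B) T).continuous
    have hmem : (0 : RP B →ₜ+ T) ∈ {χ : RP B →ₜ+ T | Set.MapsTo χ
        (US B (∅ : Set ι) : Set (RP B)) {t : T | ‖t‖ < 1 / 4}} ∩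
        (toDual b hb '' ((US B (∅ : Set ι) : Set (RP B)) \ U))ᶜ := by
      refine ⟨?_, ?_⟩
      · intro x _
        change ‖(0 : T)‖ < 1 / 4
        rw [norm_zero]
        norm_num
      · rintro ⟨x, hx, h0⟩
        have : x = 0 := hinj (by rw [h0, map_zero])
        exact hx.2 (this ▸ hU0)
    refine Filter.mem_of_superset ((hW.inter hcl.isOpen_compl).mem_nhds hmem) ?_
    rintro χ ⟨h1, h2⟩
    obtain ⟨x, rfl⟩ := hsurj χ
    have h3 : ∀ y ∈ US B (∅ : Set ι), pairing b hb x y = 0 := by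
      intro y hy
      refine no_small ((US B (∅ : Set ι)).map (pairing b hb x)) ?_ _ ⟨y, hy, rfl⟩
      rintro _ ⟨z, hz, rfl⟩
      exact h1 hz
    have h4 : x ∈ US B (∅ : Set ι) :=
      ⟨fun i => pairing_mem b hb hL x h3 i, fun i hi => absurd hi (Set.notMem_empty i)⟩
    have h5 : x ∈ U := by
      by_contra h
      exact h2 ⟨x, ⟨h4, h⟩, rfl⟩
    exact hUV h5
  let e1 : RP B ≃+ (RP B →ₜ+ T) := AddEquiv.ofBijective (toDual b hb) ⟨hinj, hsurj⟩
  exact ⟨{ e1 with
    continuous_toFun := toDual_continuous b hb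
    continuous_invFun := (e1.toEquiv.toHomeomorphOfContinuousOpen
      (toDual_continuous b hb) hopen).continuous_invFun }, fun x y => rfl⟩

end RP

end Pool.Agent.N58.MH
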