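import Pool.Agent.N58.MH.Defs

set_option autoImplicit false

namespace Pool.Agent.N58.MH

namespace L4

open HG

variable {K : Type} [AddCommGroup K] [TopologicalSpace K] (β : K →+ K →+ T)

theorem continuous_c : Continuous (fun g : HG β => g.c) :=
  continuous_fst.comp (homeo β).continuous

theorem continuous_v : Continuous (fun g : HG β => g.v) :=
  continuous_snd.comp (homeo β).continuous

theorem continuous_mk {X : Type} [TopologicalSpace X] {f : X → T} {g : X → K}
    (hf : Continuous f) (hg : Continuous g) : Continuous (fun x => (⟨f x, g x⟩ : HG β)) :=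
  (homeo β).symm.continuous.comp (hf.prodMk hg)

theorem isTopologicalGroup [IsTopologicalAddGroup K]
    (hβ : Continuous fun p : K × K => β p.1 p.2) : IsTopologicalGroup (HG β) where
  continuous_mul := by
    have hc := continuous_c β
    have hv := continuous_v β
    refine continuous_mk β (X := HG β × HG β)
      (f := fun p => p.1.c + p.2.c + β p.1.v p.2.v) (g := fun p => p.1.v + p.2.v) ?_ ?_
    · exact ((hc.comp continuous_fst).add (hc.comp continuous_snd)).add
        (hβ.comp ((hv.comp continuous_fst).prodMk (hv.comp continuous_snd)))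
    · exact (hv.comp continuous_fst).add (hv.comp continuous_snd)
  continuous_inv := by
    have hc := continuous_c β
    have hv := continuous_v β
    refine continuous_mk β (X := HG β)
      (f := fun g => - g.c + β g.v g.v) (g := fun g => - g.v) ?_ ?_
    · exact hc.neg.add (hβ.comp (hv.prodMk hv))
    · exact hv.neg

omit [TopologicalSpace K] in
theorem comm_eq (x y : HG β) : x * y * x⁻¹ * y⁻¹ = ⟨β x.v y.v - β y.v x.v, 0⟩ := by
  ext
  · simp only [mul_c, mul_v, inv_c, inv_v, map_add, map_neg, AddMonoidHom.add_apply,
      AddMonoidHom.neg_apply]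
    abel
  · simp only [mul_v, inv_v]
    abel

omit [TopologicalSpace K] in
theorem mem_center_of {g : HG β} (hg : g.v = 0) : g ∈ Subgroup.center (HG β) := by
  rw [Subgroup.mem_center_iff]
  intro y
  ext
  · simp only [mul_c, hg, map_zero, AddMonoidHom.zero_apply]
    abel
  · simp only [mul_v, hg]
    abel

theorem mem_center_iff (e : K ≃ₜ+ (K →ₜ+ T)) (he : ∀ x y, e x y = β x y - β y x) (g : HG β) :
    g ∈ Subgroup.center (HG β) ↔ g.v = 0 := by
  refine ⟨fun h => ?_, mem_center_of β⟩
  rw [Subgroup.mem_center_iff] at h
  have h1 : e g.v = 0 := by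
    ext y
    have h2 := congrArg HG.c (h ⟨0, y⟩)
    simp only [mul_c] at h2
    rw [he]
    have h3 : β y g.v = β g.v y := by
      have : (0 : T) + g.c = g.c + 0 := by abel
      rw [this] at h2
      exact add_left_cancel h2
    rw [h3, sub_self]
    rfl
  exact (map_eq_zero_iff e e.injective).1 h1

/-- the isomorphism of the centre with `ℝ/ℤ` -/
def phi (hcen : ∀ g : HG β, g ∈ Subgroup.center (HG β) ↔ g.v = 0) :
    Subgroup.center (HG β) ≃ₜ* Multiplicative T where
  toFun z := Multiplicative.ofAdd z.1.c
  invFun t := ⟨⟨t.toAdd, 0⟩, (hcen _).2 rfl⟩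
  left_inv z := by
    apply Subtype.ext
    ext
    · rfl
    · exact ((hcen z.1).1 z.2).symm
  right_inv t := rfl
  map_mul' z w := by
    have hz : z.1.v = 0 := (hcen z.1).1 z.2
    change Multiplicative.ofAdd (z.1.c + w.1.c + β z.1.v w.1.v) =
      Multiplicative.ofAdd (z.1.c + w.1.c)
    rw [hz]
    simp
  continuous_toFun := continuous_ofAdd.comp ((continuous_c β).comp continuous_subtype_val)
  continuous_invFun := by
    refine Continuous.subtype_mk ?_ _
    exact continuous_mk β continuous_toAdd continuous_const

/-- the projection on `K` -/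
def prK : HG β →* Multiplicative K where
  toFun g := Multiplicative.ofAdd g.v
  map_one' := rfl
  map_mul' _ _ := rfl

/-- the isomorphism of the quotient by the centre with `K` -/
def quo (hcen : ∀ g : HG β, g ∈ Subgroup.center (HG β) ↔ g.v = 0) :
    (HG β ⧸ Subgroup.center (HG β)) ≃ₜ* Multiplicative K where
  toFun := QuotientGroup.lift (Subgroup.center (HG β)) (prK β) (by
    intro g hg
    rw [MonoidHom.mem_ker]
    exact congrArg Multiplicative.ofAdd ((hcen g).1 hg))
  invFun k := QuotientGroup.mk ⟨0, k.toAdd⟩
  left_inv := by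
    intro x
    induction x using QuotientGroup.induction_on with
    | H g =>
      change (QuotientGroup.mk ⟨0, g.v⟩ : HG β ⧸ Subgroup.center (HG β)) = QuotientGroup.mk g
      rw [QuotientGroup.eq]
      rw [hcen]
      simp only [mul_v, inv_v]
      abel
  right_inv := by
    intro k
    rfl
  map_mul' := map_mul _
  continuous_toFun := by
    refine Continuous.quotient_lift ?_ _
    exact continuous_ofAdd.comp (continuous_v β)
  continuous_invFun := by
    refine continuous_quot_mk.comp ?_
    exact continuous_mk β continuous_const continuous_toAdd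

theorem quo_mk (hcen : ∀ g : HG β, g ∈ Subgroup.center (HG β) ↔ g.v = 0) (g : HG β) :
    quo β hcen (QuotientGroup.mk g) = Multiplicative.ofAdd g.v := rfl

/-- the dual of the quotient -/
def dual {Q : Type} [Group Q] [TopologicalSpace Q] (q : Q ≃ₜ* Multiplicative K) :
    (K →ₜ+ T) ≃ₜ (Q →ₜ* Multiplicative T) where
  toFun χ := ⟨⟨⟨fun y => Multiplicative.ofAdd (χ (q y).toAdd), by simp⟩, fun x y => by simp⟩, by
    exact continuous_ofAdd.comp (χ.continuous.comp (continuous_toAdd.comp q.continuous))⟩
  invFun ψ := ⟨⟨⟨fun k => (ψ (q.symm (Multiplicative.ofAdd k))).toAdd, by simp⟩,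
    fun x y => by simp⟩, by
    exact continuous_toAdd.comp (ψ.continuous.comp (q.symm.continuous.comp continuous_ofAdd))⟩
  left_inv χ := by
    ext k
    change χ (q (q.symm (Multiplicative.ofAdd k))).toAdd = χ k
    rw [ContinuousMulEquiv.apply_symm_apply]
    rfl
  right_inv ψ := by
    ext y
    change ψ (q.symm (q y)) = ψ y
    rw [ContinuousMulEquiv.symm_apply_apply]
  continuous_toFun := by
    rw [(ContinuousMonoidHom.isInducing_toContinuousMap _ _).continuous_iff]
    let a : C(T, Multiplicative T) := ⟨Multiplicative.ofAdd, continuous_ofAdd⟩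
    let b : C(Q, K) := ⟨fun y => (q y).toAdd, continuous_toAdd.comp q.continuous⟩
    exact (ContinuousMap.continuous_postcomp a).comp ((ContinuousMap.continuous_precomp b).comp
      (ContinuousAddMonoidHom.isInducing_toContinuousMap K T).continuous)
  continuous_invFun := by
    rw [(ContinuousAddMonoidHom.isInducing_toContinuousMap _ _).continuous_iff]
    let a : C(Multiplicative T, T) := ⟨Multiplicative.toAdd, continuous_toAdd⟩
    let b : C(K, Q) := ⟨fun k => q.symm (Multiplicative.ofAdd k),
      q.symm.continuous.comp continuous_ofAdd⟩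
    exact (ContinuousMap.continuous_postcomp a).comp ((ContinuousMap.continuous_precomp b).comp
      (ContinuousMonoidHom.isInducing_toContinuousMap Q (Multiplicative T)).continuous)

/-- the Mumford map -/
def mum {Q : Type} [Group Q] [TopologicalSpace Q] (q : Q ≃ₜ* Multiplicative K)
    (e : K ≃ₜ+ (K →ₜ+ T)) : Q ≃ₜ* (Q →ₜ* Multiplicative T) where
  toFun x := dual q (e (q x).toAdd)
  invFun ψ := q.symm (Multiplicative.ofAdd (e.symm ((dual q).symm ψ)))
  left_inv x := by simp
  right_inv ψ := by simp
  map_mul' x y := by
    rw [map_mul, toAdd_mul, map_add]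
    rfl
  continuous_toFun := (dual q).continuous.comp
    (e.continuous.comp (continuous_toAdd.comp q.continuous))
  continuous_invFun := q.symm.continuous.comp (continuous_ofAdd.comp
    (e.symm.continuous.comp (dual q).symm.continuous))

end L4

open L4 in
theorem mumford {K : Type} [AddCommGroup K] [TopologicalSpace K] [IsTopologicalAddGroup K]
    [LocallyCompactSpace K] [T2Space K] (β : K →+ K →+ T)
    (hβ : Continuous fun p : K × K => β p.1 p.2) (e : K ≃ₜ+ (K →ₜ+ T))
    (he : ∀ x y, e x y = β x y - β y x) : IsMumford (HG β) := by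
  have hcen := mem_center_iff β e he
  have hcomm : ∀ x y : HG β, x * y * x⁻¹ * y⁻¹ ∈ Subgroup.center (HG β) := by
    intro x y
    rw [comm_eq]
    exact mem_center_of β rfl
  refine ⟨isTopologicalGroup β hβ, ?_, ?_, hcomm, phi β hcen, mum (quo β hcen) e, ?_⟩
  · exact (HG.homeo β).isClosedEmbedding.locallyCompactSpace
  · exact (HG.homeo β).isEmbedding.t2Space
  · intro x y
    have h1 : phi β hcen ⟨x * y * x⁻¹ * y⁻¹, hcomm x y⟩ =
        Multiplicative.ofAdd ((x * y * x⁻¹ * y⁻¹).c) := rfl
    rw [h1, comm_eq, ← he]
    rfl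

end Pool.Agent.N58.MH
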