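import Pool.Agent.N58.MH.Defs

/-!
# A generalized Heisenberg group `HG β` gives an idempotent of `K` with two isotropic pieces
-/

set_option autoImplicit false

namespace Pool.Agent.N58.MH

theorem split_of_heis {K : Type} [AddCommGroup K] [TopologicalSpace K] [IsTopologicalAddGroup K]
    (β : K →+ K →+ T) (hβ : Continuous fun p : K × K => β p.1 p.2)
    (hnd : ∀ x, (∀ y, β x y = β y x) → x = 0) (h : IsGenHeisenberg (HG β)) :
    ∃ π : K →+ K, Continuous π ∧ (∀ x, π (π x) = π x) ∧
      (∀ x y, β (π x) (π y) = β (π y) (π x)) ∧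
      (∀ x y, β (x - π x) (y - π y) = β (y - π y) (x - π x)) := by
  have _ := hβ
  obtain ⟨A, E, F, _, _, _, _, _, _, _, _, _, ω, e, -, he⟩ := h
  -- commuting elements
  have comm_iff : ∀ g h : HG β, g * h = h * g ↔ β g.v h.v = β h.v g.v := by
    intro g h
    constructor
    · intro hh
      have := congrArg HG.c hh
      simp only [HG.mul_c] at this
      have h2 : g.c + h.c = h.c + g.c := add_comm _ _
      rw [h2] at this
      exact add_left_cancel this
    · intro hh
      ext
      · simp only [HG.mul_c, hh, add_comm g.c h.c]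
      · simp only [HG.mul_v, add_comm]
  have comm_iff' : ∀ g h : HG β, g * h = h * g ↔
      ω (e g).2.1 (e h).2.2 = ω (e h).2.1 (e g).2.2 := by
    intro g h
    rw [← e.injective.eq_iff, he, he]
    constructor
    · intro hh
      have := congrArg Prod.fst hh
      simp only at this
      rw [add_comm (e g).1 (e h).1] at this
      exact add_left_cancel this
    · intro hh
      rw [hh, add_comm (e g).1, add_comm (e g).2.1, add_comm (e g).2.2]
  -- the map P
  let P : HG β → HG β := fun g => e.symm (0, (e g).2.1, 0)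
  have eP : ∀ g, e (P g) = (0, (e g).2.1, 0) := fun g => e.apply_symm_apply _
  have P_mul : ∀ g h, P (g * h) = P g * P h := by
    intro g h
    apply e.injective
    rw [he, eP, eP, eP, he]
    simp
  have P_cont : Continuous P := by
    refine e.symm.continuous.comp ?_
    exact continuous_const.prodMk
      ((continuous_fst.comp (continuous_snd.comp e.continuous)).prodMk continuous_const)
  have P_idem : ∀ g, P (P g) = P g := by
    intro g
    apply e.injective
    rw [eP, eP]
  have P_comm : ∀ g h, P g * P h = P h * P g := by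
    intro g h
    rw [comm_iff', eP, eP]
    simp
  -- central elements
  have P_central : ∀ g : HG β, g.v = 0 → (P g).v = 0 := by
    intro g hg
    apply hnd
    intro y
    have hc : ∀ h : HG β, g * h = h * g := by
      intro h
      rw [comm_iff, hg]
      simp
    have hω : ∀ c' : F, ω (e g).2.1 c' = 0 := by
      intro c'
      have := (comm_iff' g (e.symm (0, 0, c'))).1 (hc _)
      rw [e.apply_symm_apply] at this
      simpa using this
    have : P g * (⟨0, y⟩ : HG β) = ⟨0, y⟩ * P g := by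
      rw [comm_iff', eP]
      simp [hω]
    exact (comm_iff _ _).1 this
  -- vertical component of P depends only on v
  have hsplit : ∀ g : HG β, g = (⟨g.c, 0⟩ : HG β) * ⟨0, g.v⟩ := by
    intro g
    ext <;> simp
  have P_v : ∀ g : HG β, (P g).v = (P ⟨0, g.v⟩).v := by
    intro g
    conv_lhs => rw [hsplit g]
    rw [P_mul, HG.mul_v, P_central ⟨g.c, 0⟩ rfl, zero_add]
  let π : K →+ K := AddMonoidHom.mk' (fun x => (P ⟨0, x⟩).v) (by
    intro x y
    have h1 : (P ((⟨0, x⟩ : HG β) * ⟨0, y⟩)).v = (P ⟨0, x⟩).v + (P ⟨0, y⟩).v := by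
      rw [P_mul, HG.mul_v]
    rw [← h1, P_v ((⟨0, x⟩ : HG β) * ⟨0, y⟩)]
    rfl)
  have hπ : ∀ g : HG β, (P g).v = π g.v := fun g => P_v g
  refine ⟨π, ?_, ?_, ?_, ?_⟩
  · have h1 : Continuous fun x : K => (HG.homeo β).symm ((0 : T), x) :=
      (HG.homeo β).symm.continuous.comp (continuous_const.prodMk continuous_id)
    have h2 : Continuous fun g : HG β => ((HG.homeo β) g).2 :=
      continuous_snd.comp (HG.homeo β).continuous
    exact h2.comp (P_cont.comp h1)
  · intro x
    have h1 := hπ (P ⟨0, x⟩)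
    rw [P_idem, hπ ⟨0, x⟩] at h1
    exact h1.symm
  · intro x y
    have h1 := (comm_iff _ _).1 (P_comm ⟨0, x⟩ ⟨0, y⟩)
    rwa [hπ, hπ] at h1
  · intro x y
    have key : ∀ z : K, (((⟨0, z⟩ : HG β) * (P ⟨0, z⟩)⁻¹).v = z - π z) ∧
        (e ((⟨0, z⟩ : HG β) * (P ⟨0, z⟩)⁻¹)).2.1 = 0 := by
      intro z
      refine ⟨by rw [HG.mul_v, HG.inv_v, hπ, sub_eq_add_neg], ?_⟩
      have h1 := congrArg (fun p => p.2.1) (he ((⟨0, z⟩ : HG β) * (P ⟨0, z⟩)⁻¹) (P ⟨0, z⟩))
      simp only [inv_mul_cancel_right] at h1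
      rw [eP] at h1
      simpa using h1
    have h1 : ((⟨0, x⟩ : HG β) * (P ⟨0, x⟩)⁻¹) * ((⟨0, y⟩ : HG β) * (P ⟨0, y⟩)⁻¹) =
        ((⟨0, y⟩ : HG β) * (P ⟨0, y⟩)⁻¹) * ((⟨0, x⟩ : HG β) * (P ⟨0, x⟩)⁻¹) := by
      rw [comm_iff', (key x).2, (key y).2]
      simp
    have h2 := (comm_iff _ _).1 h1
    rwa [(key x).1, (key y).1] at h2

end Pool.Agent.N58.MH
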