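import Pool.Agent.N58.MH.L2
import Pool.Agent.N58.MH.L3
import Pool.Agent.N58.MH.L4
import Pool.Agent.N58.MH.L5

/-!
# A Mumford group which is not a generalized Heisenberg group: assembly
-/

set_option autoImplicit false

namespace Pool.Agent.N58.MH

open RestrictedProduct Filter Topology

/-- the finite statement (proved in `L1.lean`) -/
def NoSplit : Prop := ∀ (n : ℕ) (_ : 2 ≤ n) [NeZero n] (π : Kn n →+ Kn n)
  (_ : ∀ x ∈ Lag n, π x ∈ Lag n) (_ : ∀ x, π (π x) = π x)
  (_ : ∀ x y, form n (π x) (π y) = 0) (_ : ∀ x y, form n (x - π x) (y - π y) = 0), False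

/-- the odd primes -/
abbrev I : Type := {p : ℕ // p.Prime ∧ p ≠ 2}

instance (p : I) : NeZero p.1 := ⟨p.2.1.ne_zero⟩

instance : Infinite I := by
  have h : (({p : ℕ | p.Prime}) \ {2}).Infinite :=
    Nat.infinite_setOfPred_prime.sdiff (Set.finite_singleton 2)
  exact h.to_subtype

/-- the restricted product -/
abbrev KK : Type := RP (fun p : I => Lag p.1)

theorem lag_iso (p : I) : ∀ x ∈ Lag p.1, ∀ y ∈ Lag p.1, form p.1 x y = 0 :=
  fun x hx y hy => (mem_lag_iff p.1 y).1 hy x hx

/-- half of the form -/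
noncomputable def half (p : I) : Kn p.1 →+ Kn p.1 →+ T :=
  AddMonoidHom.mk' (fun x => form p.1 (((p.1 ^ 8 + 1) / 2) • x)) (by
    intro x y
    rw [nsmul_add, map_add])

theorem half_apply (p : I) (x y : Kn p.1) : half p x y = form p.1 (((p.1 ^ 8 + 1) / 2) • x) y := rfl

theorem half_iso (p : I) : ∀ x ∈ Lag p.1, ∀ y ∈ Lag p.1, half p x y = 0 :=
  fun x hx y hy => lag_iso p _ (AddSubgroup.nsmul_mem _ hx _) y hy

theorem nsmul_Kn (n : ℕ) (x : Kn n) : (n ^ 8) • x = 0 := by
  have h1 : ((n : ZMod (n ^ 8)) ^ 8) = 0 := by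
    have := ZMod.natCast_self (n ^ 8)
    rwa [Nat.cast_pow] at this
  have h2 : ((n : ZMod (n ^ 4)) ^ 8) = 0 := by
    have := ZMod.natCast_self (n ^ 4)
    rw [Nat.cast_pow] at this
    rw [show (8 : ℕ) = 4 + 4 from rfl, pow_add, this, zero_mul]
  refine Prod.ext (Prod.ext ?_ ?_) (Prod.ext ?_ ?_)
  · simp [h1]
  · simp [h1]
  · simp [h2]
  · simp [h2]

theorem half_sub (p : I) (x y : Kn p.1) : half p x y - half p y x = form p.1 x y := by
  rw [half_apply, half_apply, form_self p.1 (((p.1 ^ 8 + 1) / 2) • y) x, sub_neg_eq_add,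
    map_nsmul, map_nsmul, AddMonoidHom.nsmul_apply, ← add_nsmul]
  have hodd : Odd (p.1 ^ 8) := (p.2.1.odd_of_ne_two p.2.2).pow
  have h : (p.1 ^ 8 + 1) / 2 + (p.1 ^ 8 + 1) / 2 = p.1 ^ 8 + 1 := by
    obtain ⟨k, hk⟩ := hodd
    omega
  rw [h, add_nsmul, one_nsmul, ← AddMonoidHom.nsmul_apply, ← map_nsmul, nsmul_Kn, map_zero,
    AddMonoidHom.zero_apply, zero_add]

/-- the bilinear map -/
noncomputable def β : KK →+ KK →+ T := pairing (B := fun p : I => Lag p.1) half half_iso

/-- the symplectic form -/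
noncomputable def nab : KK →+ KK →+ T :=
  pairing (B := fun p : I => Lag p.1) (fun p => form p.1) lag_iso

theorem β_sub (x y : KK) : nab x y = β x y - β y x := by
  rw [nab, β, pairing_apply, pairing_apply, pairing_apply,
    ← finsum_sub_distrib (finite_support half half_iso x y) (finite_support half half_iso y x)]
  exact finsum_congr fun p => (half_sub p _ _).symm

theorem exists_e : ∃ e : KK ≃ₜ+ (KK →ₜ+ T), ∀ x y, e x y = nab x y := by
  refine toDual_homeo (B := fun p : I => Lag p.1) (fun p => form p.1) lag_iso ?_ ?_ ?_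
  · intro p χ
    exact form_surj p.1 χ
  · intro p x h
    refine (mem_lag_iff p.1 x).2 fun l hl => ?_
    rw [form_self, h l hl, neg_zero]
  · intro p x h
    exact form_nondeg p.1 x h

theorem no_proj (hns : NoSplit) (π : KK →+ KK) (hc : Continuous π) (h2 : ∀ x, π (π x) = π x)
    (h1 : ∀ x y, nab (π x) (π y) = 0) (h3 : ∀ x y, nab (x - π x) (y - π y) = 0) : False := by
  have hV : π ⁻¹' (US (fun p : I => Lag p.1) (∅ : Set I) : Set KK) ∈ 𝓝 (0 : KK) := by
    refine hc.continuousAt.preimage_mem_nhds ?_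
    rw [map_zero]
    exact US_mem_nhds _ Set.finite_empty
  obtain ⟨S, hS, hsub⟩ := exists_US_subset _ hV
  obtain ⟨p, hp⟩ := hS.infinite_compl.nonempty
  have hcomp : ∀ z : KK, (p.1 ^ 8) • z = 0 → z = single (fun p : I => Lag p.1) p (z p) := by
    intro z hz
    refine RestrictedProduct.ext _ _ fun q => ?_
    by_cases hq : q = p
    · subst hq
      rw [single_eq_same]
    · rw [single_eq_of_ne _ _ hq]
      have h4 : (p.1 ^ 8) • z q = 0 := by
        have := congrArg (fun w : KK => w q) hz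
        exact this
      have h5 : (q.1 ^ 8) • z q = 0 := nsmul_Kn q.1 (z q)
      have hcop : Nat.Coprime (p.1 ^ 8) (q.1 ^ 8) := by
        refine Nat.Coprime.pow _ _ ((Nat.coprime_primes p.2.1 q.2.1).2 ?_)
        intro h
        exact hq (Subtype.ext h.symm)
      have h6 := AddMonoid.addOrderOf_eq_one_iff.1 (Nat.eq_one_of_dvd_coprimes hcop
        (addOrderOf_dvd_of_nsmul_eq_zero h4) (addOrderOf_dvd_of_nsmul_eq_zero h5))
      exact h6
  let sg : Kn p.1 →+ KK := AddMonoidHom.mk' (fun y => single (fun p : I => Lag p.1) p y)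
    (fun y z => single_add (fun p : I => Lag p.1) p y z)
  have hsg : ∀ y, sg y = single (fun p : I => Lag p.1) p y := fun y => rfl
  let ev : KK →+ Kn p.1 := evalAddMonoidHom (fun p : I => Kn p.1) p
  have hev : ∀ z : KK, ev z = z p := fun z => rfl
  let πp : Kn p.1 →+ Kn p.1 := ev.comp (π.comp sg)
  have hπp : ∀ y, π (sg y) = sg (πp y) := by
    intro y
    have h4 : (p.1 ^ 8) • π (sg y) = 0 := by
      rw [← map_nsmul, ← map_nsmul, nsmul_Kn, map_zero, map_zero]
    exact hcomp _ h4
  have hevsg : ∀ y, ev (sg y) = y := by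
    intro y
    rw [hev, hsg, single_eq_same]
  have hform : ∀ x y, form p.1 x y = nab (sg x) (sg y) := by
    intro x y
    rw [hsg y, nab, pairing_single]
    change form p.1 x y = form p.1 (ev (sg x)) y
    rw [hevsg]
  refine hns p.1 p.2.1.two_le πp ?_ ?_ ?_ ?_
  · intro x hx
    have h5 : sg x ∈ US (fun p : I => Lag p.1) S := single_mem_US (B := fun p : I => Lag p.1) S p hp x hx
    exact (hsub h5).1 p
  · intro x
    have h5 : sg (πp (πp x)) = sg (πp x) := by
      rw [← hπp, ← hπp, h2]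
    have h6 := congrArg ev h5
    rwa [hevsg, hevsg] at h6
  · intro x y
    rw [hform, ← hπp, ← hπp, h1]
  · intro x y
    rw [hform, map_sub sg, map_sub sg, ← hπp, ← hπp, h3]

theorem main (hns : NoSplit) : ∃ (G : Type) (_ : Group G) (_ : TopologicalSpace G),
    IsMumford G ∧ ¬ IsGenHeisenberg G := by
  obtain ⟨e, he⟩ := exists_e
  have hβ : Continuous fun p : KK × KK => β p.1 p.2 :=
    pairing_continuous (B := fun p : I => Lag p.1) half half_iso
  refine ⟨HG β, inferInstance, inferInstance, mumford β hβ e fun x y => by rw [he, β_sub], ?_⟩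
  intro h
  obtain ⟨π, hc, h2, h1, h3⟩ := split_of_heis β hβ (by
    intro x hx
    apply e.injective
    rw [map_zero]
    ext y
    rw [he, β_sub, hx y, sub_self]
    rfl) h
  refine no_proj hns π hc h2 ?_ ?_
  · intro x y
    rw [β_sub, h1, sub_self]
  · intro x y
    rw [β_sub, h3, sub_self]

end Pool.Agent.N58.MH
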